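import Mathlib

set_option autoImplicit false
open Finset

namespace Run7.h83.HD

variable {n : ℕ}

/-- quadratic form of a matrix -/
def Q (A : Fin n → Fin n → ℝ) (x : Fin n → ℝ) : ℝ := ∑ i, ∑ j, A i j * x i * x j

/-- mixed form -/
def S (A : Fin n → Fin n → ℝ) (x y : Fin n → ℝ) : ℝ := ∑ i, ∑ j, A i j * x i * y j

theorem Q_eq_S (A : Fin n → Fin n → ℝ) (x : Fin n → ℝ) : Q A x = S A x x := rfl

theorem S_add_left (A : Fin n → Fin n → ℝ) (x y z : Fin n → ℝ) :
    S A (fun i => x i + y i) z = S A x z + S A y z := by
  unfold S
  rw [← Finset.sum_add_distrib]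
  apply Finset.sum_congr rfl; intro i _
  rw [← Finset.sum_add_distrib]
  apply Finset.sum_congr rfl; intro j _
  ring

theorem S_smul_left (A : Fin n → Fin n → ℝ) (a : ℝ) (x z : Fin n → ℝ) :
    S A (fun i => a * x i) z = a * S A x z := by
  unfold S
  rw [Finset.mul_sum]
  apply Finset.sum_congr rfl; intro i _
  rw [Finset.mul_sum]
  apply Finset.sum_congr rfl; intro j _
  ring

theorem S_comm (A : Fin n → Fin n → ℝ) (hA : ∀ i j, A i j = A j i) (x z : Fin n → ℝ) :
    S A x z = S A z x := by
  unfold S
  rw [Finset.sum_comm]
  apply Finset.sum_congr rfl; intro i _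
  apply Finset.sum_congr rfl; intro j _
  rw [hA]; ring

/-- expansion of the form at `x + t y` -/
theorem Q_add_smul (A : Fin n → Fin n → ℝ) (hA : ∀ i j, A i j = A j i) (x y : Fin n → ℝ) (t : ℝ) :
    Q A (fun i => x i + t * y i) = Q A x + 2 * t * S A x y + t ^ 2 * Q A y := by
  rw [Q_eq_S, S_add_left, S_comm A hA x, S_comm A hA (fun i => t * y i), S_add_left,
    S_add_left, S_smul_left, S_smul_left, S_comm A hA x (fun i => t * y i), S_smul_left,
    S_comm A hA y (fun i => t * y i), S_smul_left, Q_eq_S, Q_eq_S, S_comm A hA x y]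
  ring

/-- the vector `e_i - e_j` -/
def dd (i j : Fin n) : Fin n → ℝ := fun k => (if k = i then 1 else 0) - (if k = j then 1 else 0)

theorem Q_dd (A : Fin n → Fin n → ℝ) (hA : ∀ i j, A i j = A j i) (h0 : ∀ i, A i i = 0)
    (i j : Fin n) : Q A (dd i j) = - 2 * A i j := by
  unfold Q dd
  simp only [mul_sub, mul_ite, mul_one, mul_zero, Finset.sum_sub_distrib, sub_mul, ite_mul,
    zero_mul, Finset.sum_ite_eq', Finset.mem_univ, if_true, Finset.sum_ite_eq]
  simp [h0, hA j i]
  ring

theorem sum_dd (i j : Fin n) : ∑ k, dd i j k = 0 := by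
  unfold dd
  simp

/-- fractional coordinates -/
noncomputable def frac (x : Fin n → ℝ) : Finset (Fin n) :=
  Finset.univ.filter (fun i => x i ≠ 0 ∧ x i ≠ 1)

/-- rounding -/
theorem rounding (A : Fin n → Fin n → ℝ) (hA : ∀ i j, A i j = A j i) (h0 : ∀ i, A i i = 0)
    (hn : ∀ i j, 0 ≤ A i j) (h : ℕ) : ∀ (m : ℕ) (x : Fin n → ℝ), (∀ i, 0 ≤ x i) → (∀ i, x i ≤ 1) →
    ∑ i, x i = h → (frac x).card = m →
    ∃ W : Finset (Fin n), W.card = h ∧ Q A (fun i => if i ∈ W then 1 else 0) ≤ Q A x := by
  classical
  intro m
  induction m using Nat.strong_induction_on with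
  | _ m ih =>
  intro x hx0 hx1 hsum hm
  by_cases hempty : frac x = ∅
  · -- integral
    refine ⟨Finset.univ.filter (fun i => x i = 1), ?_, ?_⟩
    · have h1 : ∀ i, x i = if x i = 1 then 1 else 0 := by
        intro i
        by_contra hcon
        have : i ∈ frac x := by
          unfold frac
          simp only [Finset.mem_filter, Finset.mem_univ, true_and]
          constructor
          · intro h0; apply hcon; rw [h0]; simp
          · intro h1; apply hcon; rw [h1]; simp
        rw [hempty] at this
        simp at this
      have h2 : ∑ i, x i = ((Finset.univ.filter (fun i => x i = 1)).card : ℝ) := by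
        rw [Finset.card_filter]
        push_cast
        exact Finset.sum_congr rfl (fun i _ => h1 i)
      rw [h2] at hsum
      exact_mod_cast hsum
    · apply le_of_eq
      congr 1
      funext i
      have : i ∉ frac x := by rw [hempty]; simp
      unfold frac at this
      simp only [Finset.mem_filter, Finset.mem_univ, true_and, not_and_or, not_not] at this
      simp only [Finset.mem_filter, Finset.mem_univ, true_and]
      rcases this with h | h <;> simp [h]
  · -- at least two fractional coordinates
    obtain ⟨i, hi⟩ := Finset.nonempty_iff_ne_empty.mpr hempty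
    have hi' : x i ≠ 0 ∧ x i ≠ 1 := by
      unfold frac at hi; simpa using hi
    have hex : ∃ j, j ≠ i ∧ j ∈ frac x := by
      by_contra hcon
      push_neg at hcon
      have hint : ∀ j, j ≠ i → x j = ((if x j = 1 then 1 else 0 : ℕ) : ℝ) := by
        intro j hj
        have h3 : j ∉ frac x := fun hmem => hcon j hj hmem
        unfold frac at h3
        simp only [Finset.mem_filter, Finset.mem_univ, true_and, not_and_or, not_not] at h3
        rcases h3 with h | h <;> simp [h]
      have h4 : x i = h - ((∑ j ∈ Finset.univ.erase i, (if x j = 1 then 1 else 0) : ℕ) : ℝ) := by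
        rw [← hsum, ← Finset.add_sum_erase _ _ (Finset.mem_univ i)]
        push_cast
        have : ∑ j ∈ Finset.univ.erase i, x j =
            ∑ j ∈ Finset.univ.erase i, (if x j = 1 then (1:ℝ) else 0) := by
          apply Finset.sum_congr rfl
          intro j hj
          have := hint j (Finset.ne_of_mem_erase hj)
          push_cast at this
          exact this
        rw [this]; ring
      set a : ℕ := ∑ j ∈ Finset.univ.erase i, (if x j = 1 then 1 else 0) with ha
      have h5 : (0 : ℝ) < x i := lt_of_le_of_ne (hx0 i) (Ne.symm hi'.1)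
      have h6 : x i < 1 := lt_of_le_of_ne (hx1 i) hi'.2
      rw [h4] at h5 h6
      have h7 : (a : ℝ) < h := by linarith
      have h8 : (h : ℝ) < a + 1 := by linarith
      have h9 : a < h := by exact_mod_cast h7
      have h10 : h < a + 1 := by exact_mod_cast h8
      omega
    obtain ⟨j, hji, hj⟩ := hex
    have hj' : x j ≠ 0 ∧ x j ≠ 1 := by
      unfold frac at hj; simpa using hj
    have hi0 : 0 < x i := lt_of_le_of_ne (hx0 i) (Ne.symm hi'.1)
    have hi1 : x i < 1 := lt_of_le_of_ne (hx1 i) hi'.2
    have hj0 : 0 < x j := lt_of_le_of_ne (hx0 j) (Ne.symm hj'.1)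
    have hj1 : x j < 1 := lt_of_le_of_ne (hx1 j) hj'.2
    -- general step
    have step : ∀ t : ℝ, 0 ≤ x i + t → x i + t ≤ 1 → 0 ≤ x j - t → x j - t ≤ 1 →
        (x i + t = 0 ∨ x i + t = 1 ∨ x j - t = 0 ∨ x j - t = 1) →
        t * S A x (dd i j) ≤ 0 →
        ∃ W : Finset (Fin n), W.card = h ∧ Q A (fun i => if i ∈ W then 1 else 0) ≤ Q A x := by
      intro t ht1 ht2 ht3 ht4 ht5 ht6
      set y : Fin n → ℝ := fun k => x k + t * dd i j k with hy
      have hyi : y i = x i + t := by simp [hy, dd, hji.symm]
      have hyj : y j = x j - t := by simp [hy, dd, hji]; ring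
      have hyk : ∀ k, k ≠ i → k ≠ j → y k = x k := by
        intro k h1 h2; simp [hy, dd, h1, h2]
      have hy0 : ∀ k, 0 ≤ y k := by
        intro k
        by_cases h1 : k = i
        · rw [h1, hyi]; exact ht1
        · by_cases h2 : k = j
          · rw [h2, hyj]; exact ht3
          · rw [hyk k h1 h2]; exact hx0 k
      have hy1 : ∀ k, y k ≤ 1 := by
        intro k
        by_cases h1 : k = i
        · rw [h1, hyi]; exact ht2
        · by_cases h2 : k = j
          · rw [h2, hyj]; exact ht4
          · rw [hyk k h1 h2]; exact hx1 k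
      have hysum : ∑ k, y k = h := by
        simp only [hy]
        rw [Finset.sum_add_distrib, ← Finset.mul_sum, sum_dd, hsum]; ring
      have hsub : frac y ⊂ frac x := by
        rw [Finset.ssubset_iff_subset_ne]
        have hsub1 : frac y ⊆ frac x := by
          intro k hk
          by_cases h1 : k = i
          · rw [h1]; exact hi
          · by_cases h2 : k = j
            · rw [h2]; exact hj
            · unfold frac at hk ⊢
              simp only [Finset.mem_filter, Finset.mem_univ, true_and] at hk ⊢
              rw [hyk k h1 h2] at hk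
              exact hk
        refine ⟨hsub1, ?_⟩
        intro heq
        rw [← heq] at hi hj
        unfold frac at hi hj
        simp only [Finset.mem_filter, Finset.mem_univ, true_and] at hi hj
        rw [hyi] at hi
        rw [hyj] at hj
        rcases ht5 with h | h | h | h
        · exact hi.1 h
        · exact hi.2 h
        · exact hj.1 h
        · exact hj.2 h
      have hlt : (frac y).card < m := by
        rw [← hm]; exact Finset.card_lt_card hsub
      obtain ⟨W, hW1, hW2⟩ := ih _ hlt y hy0 hy1 hysum rfl
      refine ⟨W, hW1, hW2.trans ?_⟩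
      rw [hy, Q_add_smul A hA, Q_dd A hA h0]
      have := hn i j
      nlinarith [sq_nonneg t]
    rcases le_total (S A x (dd i j)) 0 with hα | hα
    · -- t > 0
      rcases le_total (1 - x i) (x j) with hc | hc
      · exact step (1 - x i) (by linarith) (by linarith) (by linarith) (by linarith)
          (Or.inr (Or.inl (by ring))) (mul_nonpos_of_nonneg_of_nonpos (by linarith) hα)
      · exact step (x j) (by linarith) (by linarith) (by linarith) (by linarith)
          (Or.inr (Or.inr (Or.inl (by ring)))) (mul_nonpos_of_nonneg_of_nonpos (by linarith) hα)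
    · rcases le_total (x i) (1 - x j) with hc | hc
      · exact step (- x i) (by linarith) (by linarith) (by linarith) (by linarith)
          (Or.inl (by ring)) (mul_nonpos_of_nonpos_of_nonneg (by linarith) hα)
      · exact step (x j - 1) (by linarith) (by linarith) (by linarith) (by linarith)
          (Or.inr (Or.inr (Or.inr (by ring)))) (mul_nonpos_of_nonpos_of_nonneg (by linarith) hα)

end Run7.h83.HD
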