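import Mathlib
import Pool.Agent.Run7.h83.HD.Round

set_option autoImplicit false
open Finset Classical

namespace Run7.h83.HD

variable {n : ℕ}

/-- adjacency matrix -/
noncomputable def AA (G : SimpleGraph (Fin n)) (i j : Fin n) : ℝ := if G.Adj i j then 1 else 0

theorem AA_comm (G : SimpleGraph (Fin n)) (i j : Fin n) : AA G i j = AA G j i := by
  unfold AA; rw [G.adj_comm]

theorem AA_self (G : SimpleGraph (Fin n)) (i : Fin n) : AA G i i = 0 := by
  unfold AA; simp

theorem AA_nonneg (G : SimpleGraph (Fin n)) (i j : Fin n) : 0 ≤ AA G i j := by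
  unfold AA; split_ifs <;> norm_num

theorem AA_le_one (G : SimpleGraph (Fin n)) (i j : Fin n) : AA G i j ≤ 1 := by
  unfold AA; split_ifs <;> norm_num

theorem twice_ncard (G : SimpleGraph (Fin n)) :
    2 * (G.edgeSet.ncard : ℝ) = ∑ i, ∑ j, AA G i j := by
  have h := G.sum_degrees_eq_twice_card_edges
  have h1 : G.edgeSet.ncard = G.edgeFinset.card := by
    rw [← SimpleGraph.coe_edgeFinset, Set.ncard_coe_finset]
  rw [h1]
  have h2 : ((2 * G.edgeFinset.card : ℕ) : ℝ) = ((∑ v, G.degree v : ℕ) : ℝ) := by rw [h]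
  push_cast at h2
  rw [h2]
  apply Finset.sum_congr rfl
  intro i _
  unfold AA
  rw [G.degree_eq_sum_if_adj]

/-- restriction of a graph to `W` -/
def rst (G : SimpleGraph (Fin n)) (W : Finset (Fin n)) : SimpleGraph (Fin n) where
  Adj i j := G.Adj i j ∧ i ∈ W ∧ j ∈ W
  symm := ⟨fun _ _ h => ⟨h.1.symm, h.2.2, h.2.1⟩⟩
  loopless := ⟨fun i h => G.loopless.irrefl i h.1⟩

theorem rst_edges (G : SimpleGraph (Fin n)) (W : Finset (Fin n)) :
    {e : Sym2 (Fin n) | e ∈ G.edgeSet ∧ ∀ v ∈ e, v ∈ W} = (rst G W).edgeSet := by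
  ext e
  induction e using Sym2.ind with
  | _ a b =>
    simp [rst, SimpleGraph.mem_edgeSet]

theorem twice_ncard_rst (G : SimpleGraph (Fin n)) (W : Finset (Fin n)) :
    2 * (({e : Sym2 (Fin n) | e ∈ G.edgeSet ∧ ∀ v ∈ e, v ∈ W}).ncard : ℝ) =
      Q (AA G) (fun i => if i ∈ W then 1 else 0) := by
  rw [rst_edges, twice_ncard]
  unfold Q AA rst
  apply Finset.sum_congr rfl; intro i _
  apply Finset.sum_congr rfl; intro j _
  by_cases h : G.Adj i j <;> by_cases h1 : i ∈ W <;> by_cases h2 : j ∈ W <;> simp [h, h1, h2]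

/-- numerical core: local density -/
theorem local_density (hn : 3 ≤ n) (G : SimpleGraph (Fin n)) (c ε d : ℝ) (hc : 0 < c)
    (hd0 : 0 < d) (hd1 : d ≤ 1 / 3) (hε : ε = d ^ 2)
    (hedge : (G.edgeSet.ncard : ℝ) ≤ c * (n : ℝ) ^ 2)
    (hedge2 : c * (n : ℝ) ^ 2 - 1 ≤ (G.edgeSet.ncard : ℝ))
    (hW : ∀ W : Finset (Fin n), W.card = n / 2 →
          (1 - ε) * c * ((n : ℝ) / 2) ^ 2 ≤
            (({e : Sym2 (Fin n) | e ∈ G.edgeSet ∧ ∀ v ∈ e, v ∈ W}).ncard : ℝ))
    (U : Finset (Fin n)) :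
    2 * c * (U.card : ℝ) ^ 2 - d * (3 + 6 * c) * (n : ℝ) ^ 2 - 2 ≤
      Q (AA G) (fun i => if i ∈ U then 1 else 0) := by
  have hnR : (3 : ℝ) ≤ n := by exact_mod_cast hn
  have hn0 : (0 : ℝ) < n := by linarith
  -- notation
  set h : ℕ := n / 2 with hh
  set r : ℝ := (h : ℝ) / n with hr
  have hr1 : r ≤ 1 / 2 := by
    rw [hr, div_le_iff₀ hn0]
    have : 2 * h ≤ n := by omega
    have : (2 * h : ℝ) ≤ n := by exact_mod_cast this
    linarith
  have hr2 : 1 / 3 ≤ r := by
    rw [hr, le_div_iff₀ hn0]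
    have : n ≤ 3 * h := by omega
    have : (n : ℝ) ≤ 3 * h := by exact_mod_cast this
    linarith
  set u : ℝ := (U.card : ℝ) / n with hu
  have hu0 : 0 ≤ u := by positivity
  have hu1 : u ≤ 1 := by
    rw [hu, div_le_one hn0]
    have := Finset.card_le_univ U
    rw [Fintype.card_fin] at this
    exact_mod_cast this
  let z : Fin n → ℝ := fun i => (if i ∈ U then 1 else 0) - u
  have hz1 : ∀ i, |z i| ≤ 1 := by
    intro i
    simp only [z]
    rw [abs_le]
    split_ifs <;> constructor <;> linarith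
  have hzsum : ∑ i, z i = 0 := by
    simp only [z]
    rw [Finset.sum_sub_distrib]
    simp [hu]
    field_simp
    ring
  set e : ℝ := (G.edgeSet.ncard : ℝ) with he
  have hQ1 : Q (AA G) (fun _ => 1) = 2 * e := by
    rw [he, twice_ncard]
    unfold Q; simp
  set L : ℝ := S (AA G) (fun _ => 1) z with hL
  set Z : ℝ := Q (AA G) z with hZ
  -- the basic inequality
  have basic : ∀ t : ℝ, |t| ≤ 1 / 3 →
      (1 - ε) * c * (n : ℝ) ^ 2 / 2 ≤ r ^ 2 * (2 * e) + 2 * t * (r * L) + t ^ 2 * Z := by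
    intro t ht
    let x : Fin n → ℝ := fun i => r + t * z i
    have htz : ∀ i, |t * z i| ≤ 1 / 3 := by
      intro i
      rw [abs_mul]
      calc |t| * |z i| ≤ (1 / 3) * 1 := mul_le_mul ht (hz1 i) (abs_nonneg _) (by norm_num)
        _ = 1 / 3 := by norm_num
    have hx0 : ∀ i, 0 ≤ x i := by
      intro i
      have := (abs_le.mp (htz i)).1
      simp only [x]; linarith
    have hx1 : ∀ i, x i ≤ 1 := by
      intro i
      have := (abs_le.mp (htz i)).2
      simp only [x]; linarith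
    have hxs : ∑ i, x i = h := by
      simp only [x]
      rw [Finset.sum_add_distrib, ← Finset.mul_sum, hzsum]
      simp [hr]
      field_simp
    obtain ⟨W, hW1, hW2⟩ := rounding (AA G) (AA_comm G) (AA_self G) (AA_nonneg G) h _ x hx0 hx1
      hxs rfl
    have h1 := hW W hW1
    rw [← twice_ncard_rst] at hW2
    have h2 : Q (AA G) x = r ^ 2 * (2 * e) + 2 * t * (r * L) + t ^ 2 * Z := by
      simp only [x]
      rw [Q_add_smul (AA G) (AA_comm G)]
      have e1 : Q (AA G) (fun _ => r) = r ^ 2 * (2 * e) := by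
        rw [← hQ1]
        unfold Q
        rw [Finset.mul_sum]
        apply Finset.sum_congr rfl; intro i _
        rw [Finset.mul_sum]
        apply Finset.sum_congr rfl; intro j _
        ring
      have e2 : S (AA G) (fun _ => r) z = r * L := by
        rw [hL]
        unfold S
        rw [Finset.mul_sum]
        apply Finset.sum_congr rfl; intro i _
        rw [Finset.mul_sum]
        apply Finset.sum_congr rfl; intro j _
        ring
      rw [e1, e2]
    rw [← h2]
    linarith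
  have hr0 : 0 ≤ r := by linarith
  have hr4 : r ^ 2 ≤ 1 / 4 := by nlinarith
  have basic2 : ∀ t : ℝ, |t| ≤ 1 / 3 →
      - (ε * c * (n : ℝ) ^ 2 / 2) ≤ 2 * t * (r * L) + t ^ 2 * Z := by
    intro t ht
    have h1 := basic t ht
    have h2 : r ^ 2 * (2 * e) ≤ c * (n : ℝ) ^ 2 / 2 := by
      have h3 : 0 ≤ c * (n : ℝ) ^ 2 := by positivity
      have h4 : 0 ≤ e := by rw [he]; positivity
      nlinarith
    linarith
  have hn2 : (0 : ℝ) < (n : ℝ) ^ 2 := by positivity
  have hZup : Z ≤ (n : ℝ) ^ 2 := by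
    rw [hZ]; unfold Q
    calc ∑ i, ∑ j, AA G i j * z i * z j ≤ ∑ _i : Fin n, ∑ _j : Fin n, (1 : ℝ) := by
          apply Finset.sum_le_sum; intro i _
          apply Finset.sum_le_sum; intro j _
          calc AA G i j * z i * z j ≤ |AA G i j * z i * z j| := le_abs_self _
            _ = |AA G i j| * |z i| * |z j| := by rw [abs_mul, abs_mul]
            _ ≤ 1 * 1 * 1 := by
              have := abs_of_nonneg (AA_nonneg G i j)
              have h2 := AA_le_one G i j
              gcongr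
              · rw [this]; exact h2
              · exact hz1 i
              · exact hz1 j
            _ = 1 := by norm_num
      _ = (n : ℝ) ^ 2 := by simp; ring
  -- lower bound for Z
  have hZlow : - (9 / 2 * ε * c * (n : ℝ) ^ 2) ≤ Z := by
    have h1 := basic2 (1 / 3) (by rw [abs_of_pos] <;> norm_num)
    have h2 := basic2 (-(1 / 3)) (by rw [abs_neg, abs_of_pos] <;> norm_num)
    nlinarith
  -- bound for L
  have hLabs : |L| ≤ 3 / 2 * (d * (n : ℝ) ^ 2 + d * c * (n : ℝ) ^ 2 / 2) := by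
    have hrL : r * |L| ≤ 1 / 2 * (d * (n : ℝ) ^ 2 + d * c * (n : ℝ) ^ 2 / 2) := by
      rcases le_total 0 L with hL0 | hL0
      · rw [abs_of_nonneg hL0]
        have h1 := basic2 (-d) (by rw [abs_neg, abs_of_pos hd0]; exact hd1)
        have h2 : 2 * d * (r * L) ≤ d ^ 2 * (n : ℝ) ^ 2 + d ^ 2 * c * (n : ℝ) ^ 2 / 2 := by
          rw [hε] at h1
          nlinarith [mul_le_mul_of_nonneg_left hZup (sq_nonneg d)]
        have h3 : d * (2 * (r * L)) ≤ d * (d * (n : ℝ) ^ 2 + d * c * (n : ℝ) ^ 2 / 2) := by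
          nlinarith
        have h4 := le_of_mul_le_mul_left h3 hd0
        linarith
      · rw [abs_of_nonpos hL0]
        have h1 := basic2 d (by rw [abs_of_pos hd0]; exact hd1)
        have h2 : 2 * d * (r * (-L)) ≤ d ^ 2 * (n : ℝ) ^ 2 + d ^ 2 * c * (n : ℝ) ^ 2 / 2 := by
          rw [hε] at h1
          nlinarith [mul_le_mul_of_nonneg_left hZup (sq_nonneg d)]
        have h3 : d * (2 * (r * (-L))) ≤ d * (d * (n : ℝ) ^ 2 + d * c * (n : ℝ) ^ 2 / 2) := by
          nlinarith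
        have h4 := le_of_mul_le_mul_left h3 hd0
        linarith
    have h5 : 1 / 3 * |L| ≤ r * |L| := mul_le_mul_of_nonneg_right hr2 (abs_nonneg _)
    linarith
  -- the form of the indicator of U
  have hfin : Q (AA G) (fun i => if i ∈ U then 1 else 0) = Z + 2 * u * L + u ^ 2 * (2 * e) := by
    have h1 : (fun i => if i ∈ U then (1 : ℝ) else 0) = fun i => z i + u * (fun _ => (1 : ℝ)) i := by
      funext i; simp only [z]; ring
    rw [h1, Q_add_smul (AA G) (AA_comm G), hQ1, S_comm (AA G) (AA_comm G)]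
  rw [hfin]
  have hU : (U.card : ℝ) = u * n := by
    rw [hu]; field_simp
  rw [hU]
  have h6 : u ^ 2 ≤ 1 := pow_le_one₀ hu0 hu1
  have h7 : u ^ 2 * (2 * (c * (n : ℝ) ^ 2 - 1)) ≤ u ^ 2 * (2 * e) := by
    apply mul_le_mul_of_nonneg_left _ (sq_nonneg u)
    linarith
  have h8 : - (2 * |L|) ≤ 2 * u * L := by
    have h9 : u * |L| ≤ |L| := by
      calc u * |L| ≤ 1 * |L| := mul_le_mul_of_nonneg_right hu1 (abs_nonneg _)
        _ = |L| := one_mul _
    have h9' : u * (-|L|) ≤ u * L := mul_le_mul_of_nonneg_left (neg_abs_le L) hu0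
    linarith
  have hA : (0 : ℝ) ≤ c * (n : ℝ) ^ 2 := by positivity
  have h10 : 9 / 2 * ε * c * (n : ℝ) ^ 2 ≤ 3 / 2 * (d * (c * (n : ℝ) ^ 2)) := by
    rw [hε]
    have h10a : d ^ 2 ≤ 1 / 3 * d := by nlinarith
    have h10b := mul_le_mul_of_nonneg_right h10a hA
    linarith
  have h12 : 0 ≤ d * (c * (n : ℝ) ^ 2) := by positivity
  have h13 : 2 * c * (u * (n : ℝ)) ^ 2 = u ^ 2 * (2 * (c * (n : ℝ) ^ 2 - 1)) + 2 * u ^ 2 := by ring
  have h14 : d * (3 + 6 * c) * (n : ℝ) ^ 2 = 3 * (d * (n : ℝ) ^ 2) + 6 * (d * (c * (n : ℝ) ^ 2)) := by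
    ring
  have h15 : 3 / 2 * (d * (n : ℝ) ^ 2 + d * c * (n : ℝ) ^ 2 / 2) =
      3 / 2 * (d * (n : ℝ) ^ 2) + 3 / 4 * (d * (c * (n : ℝ) ^ 2)) := by ring
  rw [h13, h14]
  rw [h15] at hLabs
  linarith

end Run7.h83.HD
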