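import Mathlib
import Pool.Agent.Run7.h83.HD.Graph

set_option autoImplicit false
open Finset Classical

namespace Run7.h83.HD

variable {n : ℕ}

theorem Q_ind (G : SimpleGraph (Fin n)) (U : Finset (Fin n)) :
    Q (AA G) (fun i => if i ∈ U then 1 else 0) =
      ∑ i ∈ U, ((U.filter (fun j => G.Adj i j)).card : ℝ) := by
  unfold Q AA
  rw [← Finset.sum_filter_add_sum_filter_not Finset.univ (fun i => i ∈ U)]
  have h2 : ∑ i ∈ Finset.univ.filter (fun i => i ∉ U), ∑ j,
      (if G.Adj i j then (1 : ℝ) else 0) * (if i ∈ U then 1 else 0) * (if j ∈ U then 1 else 0) = 0 := by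
    apply Finset.sum_eq_zero
    intro i hi
    have : i ∉ U := by simpa using hi
    simp [this]
  rw [h2, add_zero]
  have h3 : Finset.univ.filter (fun i => i ∈ U) = U := by ext; simp
  rw [h3]
  apply Finset.sum_congr rfl
  intro i hi
  rw [Finset.card_filter]
  push_cast
  rw [← Finset.sum_filter_add_sum_filter_not Finset.univ (fun i => i ∈ U), h3]
  have h4 : ∑ j ∈ Finset.univ.filter (fun i => i ∉ U),
      (if G.Adj i j then (1 : ℝ) else 0) * (if i ∈ U then 1 else 0) * (if j ∈ U then 1 else 0) = 0 := by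
    apply Finset.sum_eq_zero
    intro j hj
    have : j ∉ U := by simpa using hj
    simp [this]
  rw [h4, add_zero]
  apply Finset.sum_congr rfl
  intro j hj
  simp [hi, hj]

theorem greedy (G : SimpleGraph (Fin n)) (κ : ℝ) (hκ0 : 0 < κ) (hκ1 : κ ≤ 1) (hn : 0 < n) (k : ℕ)
    (hdens : ∀ U : Finset (Fin n), κ ^ k * n ≤ (U.card : ℝ) →
      κ * (U.card : ℝ) ^ 2 ≤ Q (AA G) (fun i => if i ∈ U then 1 else 0)) :
    ∀ j : ℕ, j ≤ k → ∃ s U : Finset (Fin n), G.IsNClique j s ∧ κ ^ j * n ≤ (U.card : ℝ) ∧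
      ∀ v ∈ U, ∀ w ∈ s, G.Adj w v := by
  intro j
  induction j with
  | zero =>
    intro _
    refine ⟨∅, Finset.univ, by simp [SimpleGraph.isNClique_iff], by simp, by simp⟩
  | succ j ih =>
    intro hj
    obtain ⟨s, U, hs, hU, hadj⟩ := ih (by omega)
    have hnR : (0 : ℝ) < n := by exact_mod_cast hn
    have hpow : κ ^ k ≤ κ ^ j := pow_le_pow_of_le_one hκ0.le hκ1 (by omega)
    have hU' : κ ^ k * n ≤ (U.card : ℝ) :=
      (mul_le_mul_of_nonneg_right hpow hnR.le).trans hU
    have hUpos : (0 : ℝ) < U.card := lt_of_lt_of_le (by positivity) hU'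
    have h1 := hdens U hU'
    rw [Q_ind] at h1
    have h2 : ∑ _i ∈ U, (κ * (U.card : ℝ)) ≤ ∑ i ∈ U, ((U.filter (fun j => G.Adj i j)).card : ℝ) := by
      rw [Finset.sum_const, nsmul_eq_mul]
      calc (U.card : ℝ) * (κ * U.card) = κ * (U.card : ℝ) ^ 2 := by ring
        _ ≤ _ := h1
    have hUne : U.Nonempty := by
      rw [← Finset.card_pos]; exact_mod_cast hUpos
    obtain ⟨v, hv, hv2⟩ := Finset.exists_le_of_sum_le hUne h2
    refine ⟨insert v s, U.filter (fun j => G.Adj v j), ?_, ?_, ?_⟩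
    · refine hs.insert ?_
      intro w hw
      exact (hadj v hv w hw).symm
    · calc κ ^ (j + 1) * n = κ * (κ ^ j * n) := by ring
        _ ≤ κ * U.card := mul_le_mul_of_nonneg_left hU hκ0.le
        _ ≤ _ := hv2
    · intro x hx w hw
      rw [Finset.mem_filter] at hx
      rw [Finset.mem_insert] at hw
      rcases hw with rfl | hw
      · exact hx.2
      · exact hadj x hx.1 w hw

end Run7.h83.HD
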